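import Pool.Agent.Y333.RP.Gap

/-!
# The powers of an edge ideal whose colon ideals have bounded regularity, exactly

Definitions used (files `Pool.Agent.H677R3.RegKoszul`, `RegDeg`, `AbSusp` and `AbFinal`):
* `edgeIdeal k G` is the ideal of `k[x_0,…,x_{n-1}]` spanned by the `x_i x_j`, `i` adjacent to `j`;
* `colonX I x` is the colon ideal `{f | x f ∈ I}` of the variable `x`;
* `TorNe J i e`: the Koszul homology `H_i(x_1,…,x_n; J) = Tor_i(J, k)` is nonzero in internal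
  degree `i + e`;
* `IsReg J r`: `r` is the greatest `e` such that `TorNe J i e` for some `i`, i.e. `reg J = r`;
* `away G x y`: the graph which has only the edges `uv` of `G` with `u`, `v` different from `x`, `y`
  and not adjacent to them.
-/

universe u

namespace Pool.Agent.Results.MP_e6fd84_al.ColonExact

open Pool.Agent.H677R3.EdgeReg Pool.Agent.H677R3.Ab Pool.Agent.Y333.RP

/-- Let `G` be a graph with an edge and `reg (I(G) : x) ≤ r` for every vertex `x`. Let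
`ρ = reg I(G)` and `σ` the greatest among `1` and the regularities of the edge ideals of the graphs
`away G x y`, `xy` an edge. Then `σ + 1 ≤ ρ ≤ r + 1`, and for every `q ≥ 1`
`reg I(G)^q = max (ρ + q - 1) (2 q - 1 + σ) ≤ 2 q + r - 1`, where for `q ≥ 2` equality holds if and
only if `σ = r`. -/
theorem result : ∀ (k : Type u) [Field k] (n : ℕ) (G : SimpleGraph (Fin n)),
    (∃ u v, G.Adj u v) →
    ∀ r : ℕ, (∀ x : Fin n, ∃ t : ℕ, IsReg (colonX (edgeIdeal k G) x) t ∧ t ≤ r) →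
    ∃ ρ σ : ℕ, IsReg (edgeIdeal k G) ρ ∧
      IsGreatest ({1} ∪ {s | ∃ x y, G.Adj x y ∧ IsReg (edgeIdeal k (away G x y)) s}) σ ∧
      σ + 1 ≤ ρ ∧ ρ ≤ r + 1 ∧
      ∀ q : ℕ, 1 ≤ q → ∃ s : ℕ, IsReg ((edgeIdeal k G) ^ q) s ∧
        s = max (ρ + q - 1) (2 * q - 1 + σ) ∧ s + 1 ≤ 2 * q + r ∧
        (2 ≤ q → (s + 1 = 2 * q + r ↔ σ = r)) := by
  intro k _ n G hG r hr
  obtain ⟨ρ, σ, h1, h2, h3, h4⟩ := formula' k G hG
  have hσ : 1 ≤ σ := h2.2 (Or.inl rfl)
  obtain ⟨s, hs, hs2⟩ := colon_bound k G hG r hr 1 le_rfl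
  rw [pow_one] at hs
  have h5 : s = ρ := hs.unique h1
  exact ⟨ρ, σ, h1, h2, h3, by omega, fun q hq => ⟨_, h4 q hq, rfl, by omega, by omega⟩⟩

end Pool.Agent.Results.MP_e6fd84_al.ColonExact
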